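import Pool.Agent.BOG.Stmts

/-!
# Row LOW (MP_9a4f8a_co, squad BOG): lower bound for the dimension of `MM`
-/

set_option autoImplicit false

namespace Pool.Agent.BOG.H40

open Polynomial Finset

universe v

variable {K : Type v} [Field K]

theorem CC_smul (r : K) (F : K[X][X]) : r • F = C (C r) * F := by
  ext i j
  simp [coeff_C_mul, smul_eq_C_mul]

/-- the `i`-th Taylor coefficient of `u_P · θ` along the line `P` -/
noncomputable def fm (m c : K) (i : ℕ) : (Fin 3 → K[X][X]) →ₗ[K] K[X] where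
  toFun θ := (taylor (C m * X + C c) (dot2 m c θ)).coeff i
  map_add' a b := by
    have : dot2 m c (a + b) = dot2 m c a + dot2 m c b := by
      simp only [dot2, Pi.add_apply]; ring
    rw [this, map_add, coeff_add]
  map_smul' r a := by
    have : dot2 m c (r • a) = (C r : K[X]) • dot2 m c a := by
      simp only [dot2, Pi.smul_apply, CC_smul]
      rw [smul_eq_C_mul]
      ring
    rw [this, map_smul, coeff_smul, smul_eq_mul, RingHom.id_apply, smul_eq_C_mul]

theorem van_sub {J : ℕ} {Y : K × K} {A B : K[X][X]} (m : K) (hA : Van J Y A) (hB : Van J Y B) :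
    Van J Y (A - C (C m) * B) := by
  intro a ha
  rw [← smul_eq_C_mul, map_sub, map_smul, coeff_sub, coeff_smul, smul_eq_mul]
  exact dvd_sub (hA a ha) (Dvd.dvd.mul_left (hB a ha) _)

theorem TD_dot2 {d : ℕ} {m c : K} {θ : Fin 3 → K[X][X]} (h : ∀ a, θ a ∈ TD K d) :
    dot2 m c θ ∈ TD K d := by
  simp only [dot2, ← CC_smul]
  exact Submodule.sub_mem _ (Submodule.sub_mem _ (h 0) (Submodule.smul_mem _ _ (h 1)))
    (Submodule.smul_mem _ _ (h 2))

theorem finrank_degreeLT' (n : ℕ) : Module.finrank K (degreeLT K n) = n := by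
  rw [LinearEquiv.finrank_eq (degreeLTEquiv K n), Module.finrank_fin_fun]

theorem dim_le (T : Finset (K × K)) (hT : Set.InjOn Prod.snd (T : Set (K × K))) (e : K × K → ℕ)
    (N : ℕ) (hN : ∑ Y ∈ T, e Y ≤ N) (W : Submodule K K[X])
    (hW : ∀ g ∈ W, g ∈ degreeLT K N ∧ ∀ Y ∈ T, (X - C Y.2) ^ (e Y) ∣ g) :
    Module.finrank K W ≤ N - ∑ Y ∈ T, e Y := by
  set Q : K[X] := ∏ Y ∈ T, (X - C Y.2) ^ (e Y) with hQ
  have hmon : Q.Monic := monic_prod_of_monic _ _ fun Y _ => (monic_X_sub_C _).pow _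
  have hdeg : Q.natDegree = ∑ Y ∈ T, e Y := by
    rw [hQ, natDegree_prod_of_monic _ _ fun Y _ => (monic_X_sub_C _).pow _]
    exact Finset.sum_congr rfl fun Y _ => by
      rw [(monic_X_sub_C _).natDegree_pow, natDegree_X_sub_C, mul_one]
  have hfd : Module.Finite K (degreeLT K (N - ∑ Y ∈ T, e Y)) :=
    Module.Finite.equiv (degreeLTEquiv K _).symm
  have hle : W ≤ (degreeLT K (N - ∑ Y ∈ T, e Y)).map (LinearMap.mulLeft K Q) := by
    intro g hg
    obtain ⟨h1, h2⟩ := hW g hg
    have hdvd : Q ∣ g := by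
      apply Finset.prod_dvd_of_coprime _ h2
      intro Y hY Z hZ hne
      have : Y.2 ≠ Z.2 := fun h => hne (hT hY hZ h)
      exact (isCoprime_X_sub_C_of_isUnit_sub (sub_ne_zero.2 this).isUnit).pow
    obtain ⟨h, rfl⟩ := hdvd
    refine ⟨h, ?_, rfl⟩
    rcases eq_or_ne h 0 with rfl | hh
    · exact Submodule.zero_mem _
    · have hQ0 : Q ≠ 0 := hmon.ne_zero
      rw [SetLike.mem_coe, mem_degreeLT, degree_eq_natDegree hh]
      rw [mem_degreeLT, degree_mul, degree_eq_natDegree hh, degree_eq_natDegree hQ0, hdeg] at h1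
      have h3 : ∑ Y ∈ T, e Y + h.natDegree < N := by exact_mod_cast h1
      have h4 : h.natDegree < N - ∑ Y ∈ T, e Y := by omega
      exact_mod_cast h4
  calc Module.finrank K W
      ≤ Module.finrank K ((degreeLT K (N - ∑ Y ∈ T, e Y)).map (LinearMap.mulLeft K Q)) :=
        Submodule.finrank_mono hle
    _ ≤ Module.finrank K (degreeLT K (N - ∑ Y ∈ T, e Y)) := Submodule.finrank_map_le _ _
    _ = _ := finrank_degreeLT' _

theorem low (hTAY : TayStmt.{v}) (hCUT : CutStmt.{v, 0}) (hVNC : VncStmt.{v})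
    (hFDM : FdmStmt.{v}) : LowStmt.{v} := by
  intro K _ n m c ν d S J hJ
  classical
  obtain ⟨U, hUfin, hU, hUdim⟩ := hVNC K d S J
  have hcut := hCUT K (Fin 3 → K[X][X]) K[X] U (Fin n × ℕ) (univ ×ˢ range ν)
    (fun x => fm (m x.1) (c x.1) x.2)
    (fun x => d - x.2 - ∑ Y ∈ onP m c S x.1, (J Y - x.2)) ?_
  · rw [Finset.sum_product] at hcut
    simp only at hcut
    have hmm : Module.finrank K (U ⊓ ⨅ x ∈ univ ×ˢ range ν,
        LinearMap.ker (fm (m x.1) (c x.1) x.2) : Submodule K (Fin 3 → K[X][X])) ≤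
        Module.finrank K (MM m c ν d) := by
      have hfin : Module.Finite K (MM m c ν d) := (hFDM K n m c ν d).2.1
      apply Submodule.finrank_mono
      intro θ hθ
      obtain ⟨h1, h2⟩ := Submodule.mem_inf.1 hθ
      refine ⟨(hU θ h1).1, fun P => ?_⟩
      rw [(hTAY K (m P) (c P) (dot2 (m P) (c P) θ)).1 ν]
      intro i hi
      simp only [Submodule.mem_iInf] at h2
      exact LinearMap.mem_ker.1 (h2 (P, i) (by simp [hi]))
    omega
  · rintro ⟨P, i⟩ hx
    have hi : i < ν := by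
      have := (Finset.mem_product.1 hx).2
      exact Finset.mem_range.1 this
    have hle := hJ P i hi
    apply dim_le
    · intro Y hY Z hZ h
      have hY1 : Y.1 = m P * Y.2 + c P := by
        have := Finset.mem_coe.1 hY
        rw [onP, mem_filter] at this
        exact this.2
      have hZ1 : Z.1 = m P * Z.2 + c P := by
        have := Finset.mem_coe.1 hZ
        rw [onP, mem_filter] at this
        exact this.2
      apply Prod.ext
      · rw [hY1, hZ1, h]
      · exact h
    · simp only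
      omega
    · rintro g ⟨θ, hθ, rfl⟩
      obtain ⟨h1, h2⟩ := hU θ hθ
      refine ⟨(hTAY K (m P) (c P) (dot2 (m P) (c P) θ)).2.1 d (TD_dot2 h1) i, fun Y hY => ?_⟩
      have hY' : Y ∈ S ∧ On Y (m P) (c P) := by
        simpa only [onP, mem_filter] using hY
      obtain ⟨v1, v2⟩ := h2 Y hY'.1
      refine (hTAY K (m P) (c P) (dot2 (m P) (c P) θ)).2.2 (J Y) Y hY'.2 ?_ i
      have e : dot2 (m P) (c P) θ =
          (θ 0 - C (C Y.1) * θ 2) - C (C (m P)) * (θ 1 - C (C Y.2) * θ 2) := by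
        have h3 : Y.1 = m P * Y.2 + c P := hY'.2
        simp only [dot2]
        rw [h3, map_add, map_add, map_mul, map_mul]
        ring
      rw [e]
      exact van_sub _ v1 v2

end Pool.Agent.BOG.H40
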